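import Pool.Agent.XV.T.Fin
import Pool.Agent.XV.T.Cls
import Pool.Agent.NH3.XD.Dens

/-!
# The 2-converse for a positive proportion of all quadratic twists of `X_0(15)`

`C_D : y² = x³ - 12987 D² x - 263466 D³` is the quadratic twist by `D` of the modular curve `X_0(15)`, which
has no complex multiplication. Its three points of order two are rational; it has no rational isogeny
of odd degree. `D` is any negative squarefree integer with `D ≡ 13` or `37 mod 60`; there is no
restriction on the prime factors of `D` or on their number.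

* `C_D(ℚ)` is finite with `Ш(C_D/ℚ)[2] = 0` if and only if the class group of `ℚ(√D)` has no element of
  order four.
* In this case `ord_{s=1} L(C_D, s) = 0 = rank C_D(ℚ)` (the `2`-converse in the minimal case).
* The proportion of these `D`, in the order of `|D|`, tends to `∏_{i ≥ 1} (1 - 2^{-i}) = 0.2887…`; the same
  is true for the `D` in any set of residue classes modulo any `m`, prime to `m`. So the rank form of the
  conjecture of Birch and Swinnerton-Dyer holds, with order and rank zero, for a positive proportion of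
  all the quadratic twists: the number of these `D` with `|D| ≤ X` is asymptotic to
  `(5 / (16 π²)) ∏_{i ≥ 1} (1 - 2^{-i}) X`.

The main new point is the nonvanishing of `L(C_D, 1)`: the class modulo two of the algebraic part is
the determinant of the reduced Rédei matrix. The value is expressed by sums of classes of pairs of elements
of a maximal order of the quaternion algebra of discriminant 5 with level structure at 3, over all the
splittings of `D`; modules `Pool.Agent.XV`, joint work with many helpers.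
-/

set_option autoImplicit false

open Filter Topology

namespace Pool.Agent.Results.MP_696deb_nt.PositiveProportionX15

/-- coefficients of the twist `C_D : y² = x³ + A D x + B D` of `X_0(15)` -/
def A (D : ℤ) : ℤ := -12987 * D ^ 2

/-- coefficients of the twist `C_D : y² = x³ + A D x + B D` of `X_0(15)` -/
def B (D : ℤ) : ℤ := -263466 * D ^ 3

/-- the curve `C_D` over `ℚ` -/
def C (D : ℤ) : WeierstrassCurve ℚ :=
  { a₁ := 0, a₂ := 0, a₃ := 0, a₄ := (A D : ℚ), a₆ := (B D : ℚ) }

/-- `C_D(ℚ)` is finite and `Ш(C_D/ℚ)` has no element of order two -/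
def RankZeroShaTwo (D : ℤ) : Prop :=
  Finite (C D).toAffine.Point ∧ ∀ x : Pool.Agent.TH841.SH.D.Sha (C D), 2 • x = 0 → x = 0

/-- the conclusion of the frozen statement for `y² = x³ + a x + b`, with both the order of vanishing
and the rank equal to `0` -/
def BSDRankZero (a b : ℤ) : Prop :=
  4 * a ^ 3 + 27 * b ^ 2 ≠ 0 ∧
    ∃ F : ℂ → ℂ, Differentiable ℂ F ∧
      (∀ s : ℂ, (3 : ℝ) / 2 < s.re →
        HasProd
          (fun p : ℕ => open Classical in
            if p.Prime ∧ ¬ ((p : ℤ) ∣ 2 * (-4 * a ^ 3 - 27 * b ^ 2)) then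
              (1 - ((p : ℂ) - (Nat.card {q : ZMod p × ZMod p //
                  q.2 ^ 2 = q.1 ^ 3 + (a : ZMod p) * q.1 + (b : ZMod p)} : ℂ))
                  * (p : ℂ) ^ (-s) + (p : ℂ) ^ (1 - 2 * s))⁻¹
            else 1)
          (F s)) ∧
      analyticOrderAt F 1 = 0 ∧
      Module.finrank ℤ
        (WeierstrassCurve.Affine.Point
          (WeierstrassCurve.toAffine
            ({ a₁ := 0, a₂ := 0, a₃ := 0, a₄ := (a : ℚ), a₆ := (b : ℚ) } :
              WeierstrassCurve ℚ))) = 0

/-- the class of the discriminants -/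
def InClass (D : ℤ) : Prop := D < 0 ∧ Squarefree D ∧ (D % 60 = 13 ∨ D % 60 = 37)

/-- The class group of the quadratic field `ℚ(√D)` has no element of order four. -/
def NoFour (D : ℤ) : Prop := ∀ (K : Type) [Field K] [NumberField K], Module.finrank ℚ K = 2 →
  (∃ a : K, a ^ 2 = (D : K)) →
  ∀ c : ClassGroup (NumberField.RingOfIntegers K), c ^ 4 = 1 → c ^ 2 = 1

open Classical in
/-- the number of the integers `D`, `|D| ≤ X`, with the property `Q` -/
noncomputable def count (Q : ℤ → Prop) (X : ℕ) : ℕ :=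
  ((Finset.Icc (-(X : ℤ)) X).filter Q).card

section proof

open Pool.Agent.NH3.XD (DB KrD cZ law_T cZ_congr cZ_mono)
open Pool.Agent.XV.T (RZ krD_noFour)

theorem rankZero_iff (D : ℤ) : RankZeroShaTwo D ↔ RZ D := by
  unfold RankZeroShaTwo RZ
  refine and_congr Iff.rfl (forall_congr' fun x => ?_)
  rw [two_nsmul]
  rfl

theorem count_eq (Q : ℤ → Prop) (X : ℕ) : count Q X = cZ Q X := rfl

theorem disc_ne {D : ℤ} (h : D ≠ 0) : 4 * A D ^ 3 + 27 * B D ^ 2 ≠ 0 := by
  have e : 4 * A D ^ 3 + 27 * B D ^ 2 = -6887475360000 * D ^ 6 := by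
    unfold A B
    ring
  rw [e]
  exact mul_ne_zero (by norm_num) (pow_ne_zero 6 h)

theorem main {D : ℤ} (h : InClass D) : (RankZeroShaTwo D ↔ NoFour D) ∧
    (RankZeroShaTwo D ↔ KrD D) ∧ (RankZeroShaTwo D → BSDRankZero (A D) (B D)) := by
  have hD : DB D := h
  obtain ⟨-, -, h1, h2, -⟩ := Pool.Agent.XV.T.out D hD
  refine ⟨?_, ?_, fun h3 => ⟨disc_ne (by have := h.1; omega), h2 ((rankZero_iff D).1 h3)⟩⟩
  · rw [rankZero_iff, h1, krD_noFour hD]
    exact Iff.rfl
  · rw [rankZero_iff, h1]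

/-- the equality of the two properties -/
theorem both {D : ℤ} (h : InClass D) : KrD D ↔ RankZeroShaTwo D ∧ BSDRankZero (A D) (B D) :=
  ⟨fun g => ⟨(main h).2.1.2 g, (main h).2.2 ((main h).2.1.2 g)⟩, fun g => (main h).2.1.1 g.1⟩

end proof

open Pool.Agent.NH3.XD Pool.Agent.NH5.PR in
/-- **Main theorem.** -/
theorem result :
    (∀ D : ℤ, InClass D → (RankZeroShaTwo D ↔ NoFour D) ∧
      (RankZeroShaTwo D → BSDRankZero (A D) (B D))) ∧
    (0.2887 < ∏' i : ℕ, (1 - (1 / 2 : ℝ) ^ (i + 1)) ∧ ∏' i : ℕ, (1 - (1 / 2 : ℝ) ^ (i + 1)) < 0.2888) ∧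
    (Tendsto (fun X : ℕ => (count (fun D => InClass D ∧ RankZeroShaTwo D ∧
        BSDRankZero (A D) (B D)) X : ℝ) / X) atTop
      (𝓝 ((∏' i : ℕ, (1 - (1 / 2 : ℝ) ^ (i + 1))) * (5 / (16 * Real.pi ^ 2))))) ∧
    ∀ (m : ℕ) (T : Finset ℤ), 0 < m →
      (∃ a : ℤ, (a % 60 = 13 ∨ a % 60 = 37) ∧ Int.gcd a m = 1 ∧ a % m ∈ T) →
      Tendsto (fun X : ℕ =>
        (count (fun D => (InClass D ∧ Int.gcd D m = 1 ∧ D % m ∈ T) ∧ RankZeroShaTwo D ∧
          BSDRankZero (A D) (B D)) X : ℝ) /
        (count (fun D => InClass D ∧ Int.gcd D m = 1 ∧ D % m ∈ T) X : ℝ)) atTop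
        (𝓝 (∏' i : ℕ, (1 - (1 / 2 : ℝ) ^ (i + 1)))) ∧
      ∃ (c : ℝ) (X₀ : ℕ), 0 < c ∧ ∀ X : ℕ, X₀ ≤ X → c * X ≤
        (count (fun D => (InClass D ∧ Int.gcd D m = 1 ∧ D % m ∈ T) ∧ RankZeroShaTwo D ∧
          BSDRankZero (A D) (B D)) X : ℝ) := by
  refine ⟨fun D hD => ⟨(main hD).1, (main hD).2.2⟩, ⟨t_ETA.2.2.2.1, t_ETA.2.2.2.2⟩, ?_,
    fun m T hm ha => ?_⟩
  · refine dens_DB_Kr.congr fun X => ?_
    have e : cZ (fun D => DB D ∧ KrD D) X =
        count (fun D => InClass D ∧ RankZeroShaTwo D ∧ BSDRankZero (A D) (B D)) X := by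
      rw [count_eq]
      exact cZ_congr (fun D => and_congr_right fun g => both (D := D) g) X
    rw [e]
  obtain ⟨h1, c, X₀, hc, h2⟩ := law_T hm T ha
  have e : ∀ X : ℕ, cZ (fun D => (DB D ∧ Int.gcd D m = 1 ∧ D % m ∈ T) ∧ KrD D) X =
      count (fun D => (InClass D ∧ Int.gcd D m = 1 ∧ D % m ∈ T) ∧ RankZeroShaTwo D ∧
          BSDRankZero (A D) (B D)) X := by
    intro X
    rw [count_eq]
    exact cZ_congr (fun D => and_congr_right fun g => both (D := D) g.1) X
  refine ⟨?_, c, X₀, hc, fun X hX => ?_⟩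
  · refine h1.congr fun X => ?_
    rw [← e X]
    rfl
  · rw [← e X]
    exact h2 X hX

end Pool.Agent.Results.MP_696deb_nt.PositiveProportionX15
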